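import Pool.Agent.H976Z.PropT.Meas

open MeasureTheory Filter Topology Set

namespace Pool.Agent.H976Z.PropT

/-- the zero point -/
def z0 : Cantor := fun _ => false

/-- `W l`: sequences whose first `true` is at position `l` -/
def W (l : ℕ) : Set Cantor := {x | x l = true ∧ ∀ m < l, x m = false}

theorem W_eq_cyl (l : ℕ) : W l = cyl (l + 1) (Function.update z0 l true) := by
  rw [← cyl_succ_split]
  ext x; simp [W, cyl, V, z0, and_comm]

theorem isClopen_W (l : ℕ) : IsClopen (W l) := by rw [W_eq_cyl]; exact isClopen_cyl _ _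

theorem meas_W (l : ℕ) : MeasurableSet (W l) := (isClopen_W l).isOpen.measurableSet

theorem W_unique {l l' : ℕ} {x : Cantor} (h : x ∈ W l) (h' : x ∈ W l') : l = l' := by
  rcases lt_trichotomy l l' with hl | hl | hl
  · have := h'.2 l hl; rw [h.1] at this; cases this
  · exact hl
  · have := h.2 l' hl; rw [h'.1] at this; cases this

theorem exists_W {x : Cantor} (h : ∃ m, x m = true) : ∃ l, x ∈ W l := by
  classical
  refine ⟨Nat.find h, Nat.find_spec h, fun m hm => ?_⟩
  simpa using Nat.find_min h hm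

theorem exists_W_le {x : Cantor} {m : ℕ} (h : x m = true) : ∃ l ≤ m, x ∈ W l := by
  obtain ⟨l, hl⟩ := exists_W ⟨m, h⟩
  refine ⟨l, ?_, hl⟩
  by_contra hc
  have := hl.2 m (by omega)
  rw [h] at this; cases this

theorem W_subset_cyl {l n : ℕ} (h : n ≤ l) : W l ⊆ cyl n z0 :=
  fun _ hx m hm => hx.2 m (by omega)

theorem exists_gap (n : ℕ) : ∃ g : ℕ, n < g ∧
    ∀ t : ℕ, g ≤ t → (t : ℝ) * (1 / 2) ^ t ≤ (1 / 2) ^ (n + 1) / ((n : ℝ) + 1) ^ 2 := by
  have h := tendsto_self_mul_const_pow_of_lt_one (r := (1 / 2 : ℝ)) (by norm_num) (by norm_num)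
  have hpos : (0 : ℝ) < (1 / 2) ^ (n + 1) / ((n : ℝ) + 1) ^ 2 := by positivity
  obtain ⟨N, hN⟩ := eventually_atTop.mp (h.eventually (ge_mem_nhds hpos))
  exact ⟨max N (n + 1), by omega, fun t ht => hN t (by omega)⟩

/-- the gap function -/
noncomputable def gap (n : ℕ) : ℕ := (exists_gap n).choose

theorem lt_gap (n : ℕ) : n < gap n := (exists_gap n).choose_spec.1

theorem gap_spec (n t : ℕ) (h : gap n ≤ t) :
    (t : ℝ) * (1 / 2) ^ t ≤ (1 / 2) ^ (n + 1) / ((n : ℝ) + 1) ^ 2 :=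
  (exists_gap n).choose_spec.2 t h

/-- the sparse sequence of levels -/
noncomputable def lev : ℕ → ℕ
  | 0 => 1
  | k + 1 => gap (lev k)

theorem lev_strictMono : StrictMono lev :=
  strictMono_nat_of_lt_succ fun k => lt_gap (lev k)

theorem lt_lev (k : ℕ) : k < lev k := by
  induction k with
  | zero => simp [lev]
  | succ k ih => have := lt_gap (lev k); simp only [lev]; omega

theorem gap_le_lev {k j : ℕ} (h : k < j) : gap (lev k) ≤ lev j :=
  lev_strictMono.monotone (show k + 1 ≤ j from h)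

/-- the relation defining the base algebra -/
def Rel (N : ℕ) (x y : Cantor) : Prop :=
  ((∃ m ≤ N, x m = true) ∧ ∀ m ≤ N, x m = y m) ∨ (∃ l, N < l ∧ x ∈ W l ∧ y ∈ W l) ∨
    ((∃ l, N < l ∧ l ∉ range lev ∧ x ∈ W l) ∧ y = z0)

/-- saturation -/
def Sat (N : ℕ) (A : Set Cantor) : Prop := ∀ x y, Rel N x y → (x ∈ A ↔ y ∈ A)

theorem Rel.pred {N : ℕ} {x y : Cantor} (h : Rel (N + 1) x y) : Rel N x y := by
  rcases h with ⟨⟨m, hm, hx⟩, h⟩ | ⟨l, hl, h⟩ | ⟨⟨l, hl, h⟩, hy⟩
  · obtain ⟨l, hl, hxl⟩ := exists_W_le hx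
    by_cases hN : l ≤ N
    · exact Or.inl ⟨⟨l, hN, hxl.1⟩, fun m hm => h m (by omega)⟩
    · refine Or.inr (Or.inl ⟨l, by omega, hxl, ?_, fun i hi => ?_⟩)
      · rw [← h l (by omega)]; exact hxl.1
      · rw [← h i (by omega)]; exact hxl.2 i hi
  · exact Or.inr (Or.inl ⟨l, by omega, h⟩)
  · exact Or.inr (Or.inr ⟨⟨l, by omega, h⟩, hy⟩)

theorem Sat.mono {N N' : ℕ} {A : Set Cantor} (h : Sat N A) (hN : N ≤ N') : Sat N' A := by
  induction hN with
  | refl => exact h
  | step _ ih => exact fun x y hxy => ih x y hxy.pred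

theorem Sat.compl {N : ℕ} {A : Set Cantor} (h : Sat N A) : Sat N Aᶜ :=
  fun x y hxy => not_congr (h x y hxy)

/-- the base algebra -/
def B0 : BooleanSubalgebra (Set Cantor) where
  carrier := {A | ∃ N, Sat N A}
  supClosed' := by
    rintro A ⟨N, hA⟩ B ⟨N', hB⟩
    exact ⟨max N N', fun x y h => or_congr (hA.mono (le_max_left _ _) x y h)
      (hB.mono (le_max_right _ _) x y h)⟩
  infClosed' := by
    rintro A ⟨N, hA⟩ B ⟨N', hB⟩
    exact ⟨max N N', fun x y h => and_congr (hA.mono (le_max_left _ _) x y h)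
      (hB.mono (le_max_right _ _) x y h)⟩
  compl_mem' := by
    rintro A ⟨N, hA⟩
    exact ⟨N, hA.compl⟩
  bot_mem' := ⟨0, fun _ _ _ => Iff.rfl⟩

theorem mem_B0 {A : Set Cantor} : A ∈ B0 ↔ ∃ N, Sat N A := Iff.rfl

theorem Sat.measurable {N : ℕ} {A : Set Cantor} (h : Sat N A) : MeasurableSet A := by
  have ho : IsOpen (A \ {z0}) := by
    rw [isOpen_iff_forall_mem_open]
    rintro x ⟨hx, hx0⟩
    have hex : ∃ m, x m = true := by
      by_contra hc
      push Not at hc
      exact hx0 (funext fun m => by simpa [z0] using hc m)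
    obtain ⟨l, hl⟩ := exists_W hex
    by_cases hN : l ≤ N
    · refine ⟨atom N x, fun y hy => ⟨?_, ?_⟩, (isClopen_atom N x).isOpen, fun m _ => rfl⟩
      · exact (h x y (Or.inl ⟨⟨l, hN, hl.1⟩, fun m hm => (hy m hm).symm⟩)).mp hx
      · intro hy0
        have := hy l hN
        rw [mem_singleton_iff.mp hy0, hl.1] at this
        cases this
    · refine ⟨W l, fun y hy => ⟨?_, ?_⟩, (isClopen_W l).isOpen, hl⟩
      · exact (h x y (Or.inr (Or.inl ⟨l, by omega, hl, hy⟩))).mp hx
      · intro hy0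
        have := hy.1
        rw [mem_singleton_iff.mp hy0] at this
        cases this
  have : A = (A \ {z0}) ∪ (A ∩ {z0}) := by simp
  rw [this]
  exact ho.measurableSet.union
    (((Set.finite_singleton z0).subset inter_subset_right).measurableSet)

theorem exists_atom_subset {U : Set Cantor} (hU : IsOpen U) {x : Cantor} (hx : x ∈ U) :
    ∃ n, atom n x ⊆ U := by
  obtain ⟨I, u, hu, hI⟩ := isOpen_pi_iff.mp hU x hx
  refine ⟨I.sup id, fun y hy => hI fun i hi => ?_⟩
  rw [hy i (Finset.le_sup (f := id) hi)]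
  exact (hu i hi).2

theorem clopen_depends {C : Set Cantor} (hC : IsClopen C) :
    ∃ N, ∀ x y : Cantor, (∀ m ≤ N, x m = y m) → (x ∈ C ↔ y ∈ C) := by
  let O : ℕ → Set Cantor := fun N => {x | atom N x ⊆ C ∨ atom N x ⊆ Cᶜ}
  have hatom : ∀ N (x y : Cantor), y ∈ atom N x → atom N y = atom N x := by
    intro N x y hy
    ext w
    exact ⟨fun hw m hm => (hw m hm).trans (hy m hm), fun hw m hm => (hw m hm).trans (hy m hm).symm⟩
  have hO : ∀ N, IsOpen (O N) := by
    intro N
    rw [isOpen_iff_forall_mem_open]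
    intro x hx
    refine ⟨atom N x, fun y hy => ?_, (isClopen_atom N x).isOpen, fun m _ => rfl⟩
    show atom N y ⊆ C ∨ atom N y ⊆ Cᶜ
    rw [hatom N x y hy]; exact hx
  have hmono : Monotone O := by
    intro a b hab x hx
    have : atom b x ⊆ atom a x := fun y hy m hm => hy m (hm.trans hab)
    exact hx.imp this.trans this.trans
  have hcov : (univ : Set Cantor) ⊆ ⋃ N, O N := by
    intro x _
    by_cases hx : x ∈ C
    · obtain ⟨n, hn⟩ := exists_atom_subset hC.isOpen hx
      exact mem_iUnion.mpr ⟨n, Or.inl hn⟩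
    · obtain ⟨n, hn⟩ := exists_atom_subset hC.compl.isOpen hx
      exact mem_iUnion.mpr ⟨n, Or.inr hn⟩
  obtain ⟨N, hN⟩ := isCompact_univ.elim_directed_cover O hO hcov hmono.directed_le
  refine ⟨N, fun x y hxy => ?_⟩
  have hx : x ∈ atom N y := hxy
  have hy : y ∈ atom N y := fun m _ => rfl
  rcases hN (mem_univ y) with h | h
  · exact iff_of_true (h hx) (h hy)
  · exact iff_of_false (h hx) (h hy)

theorem clopen_mem_B0 {C : Set Cantor} (hC : IsClopen C) : C ∈ B0 := by
  obtain ⟨N, hN⟩ := clopen_depends hC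
  refine ⟨N, fun x y h => hN x y ?_⟩
  rcases h with ⟨_, h⟩ | ⟨l, hl, hx, hy⟩ | ⟨⟨l, hl, -, hx⟩, hy⟩
  · exact h
  · intro m hm; rw [hx.2 m (by omega), hy.2 m (by omega)]
  · intro m hm; rw [hx.2 m (by omega), hy]; rfl

/-- union of the `W (lev k)`, `k ∈ Z` -/
def WU (Z : Set ℕ) : Set Cantor := {x | ∃ k ∈ Z, x ∈ W (lev k)}

theorem WU_mem_B0 (Z : Set ℕ) : WU Z ∈ B0 := by
  have key : ∀ l (x y : Cantor), x ∈ W l → y ∈ W l → x ∈ WU Z → y ∈ WU Z := by
    rintro l x y hx hy ⟨k, hk, hxk⟩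
    exact ⟨k, hk, by rw [W_unique hxk hx]; exact hy⟩
  refine ⟨0, fun x y h => ?_⟩
  rcases h with ⟨⟨m, hm, hx⟩, h⟩ | ⟨l, -, hx, hy⟩ | ⟨⟨l, -, hl, hx⟩, hy⟩
  · obtain rfl : m = 0 := by omega
    have hx' : x ∈ W 0 := ⟨hx, fun m hm => by omega⟩
    have hy' : y ∈ W 0 := ⟨by rw [← h 0 le_rfl]; exact hx, fun m hm => by omega⟩
    exact ⟨key 0 x y hx' hy', key 0 y x hy' hx'⟩
  · exact ⟨key l x y hx hy, key l y x hy hx⟩
  · refine iff_of_false ?_ ?_
    · rintro ⟨k, -, hk⟩
      exact hl ⟨k, W_unique hk hx⟩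
    · rintro ⟨k, -, hk⟩
      have := hk.1
      rw [hy] at this; cases this

/-- the estimate on the atom around `z0` -/
theorem small_atom {k : ℕ} {A : Set Cantor} (hA : Sat (lev k) A) (h0 : z0 ∉ A) :
    lam.real (A ∩ atom (lev k) z0) ≤ (1 / 2) ^ (lev k + 1) / ((lev k : ℝ) + 1) ^ 2 ∧
    ∀ m : ℕ, lev k < m → (m : ℝ) * |psi m (A ∩ atom (lev k) z0)| ≤
      (1 / 2) ^ (lev k + 1) / ((lev k : ℝ) + 1) ^ 2 := by
  set n := lev k with hn
  have hstruct : ∀ x ∈ A ∩ atom n z0, ∃ l, gap n ≤ l ∧ x ∈ W l := by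
    rintro x ⟨hx, hxa⟩
    have hex : ∃ m, x m = true := by
      by_contra hc
      push Not at hc
      have : x = z0 := funext fun m => by simpa [z0] using hc m
      exact h0 (this ▸ hx)
    obtain ⟨l, hl⟩ := exists_W hex
    have hnl : n < l := by
      by_contra hc
      have := hxa l (by omega)
      rw [hl.1] at this; cases this
    have hr : l ∈ range lev := by
      by_contra hc
      exact h0 ((hA x z0 (Or.inr (Or.inr ⟨⟨l, hnl, hc, hl⟩, rfl⟩))).mp hx)
    obtain ⟨j, rfl⟩ := hr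
    exact ⟨lev j, gap_le_lev (lev_strictMono.lt_iff_lt.mp hnl), hl⟩
  have hsub : A ∩ atom n z0 ⊆ cyl (gap n) z0 := by
    intro x hx
    obtain ⟨l, hl, hxl⟩ := hstruct x hx
    exact W_subset_cyl hl hxl
  have hg1 : (1 : ℝ) ≤ gap n := by
    have := lt_gap n
    exact_mod_cast (by omega : 1 ≤ gap n)
  have hmeas : MeasurableSet (A ∩ atom n z0) := hA.measurable.inter (meas_atom _ _)
  constructor
  · calc lam.real (A ∩ atom n z0) ≤ lam.real (cyl (gap n) z0) := measureReal_mono hsub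
      _ = (1 / 2) ^ gap n := lam_cyl _ _
      _ ≤ (gap n : ℝ) * (1 / 2) ^ gap n := le_mul_of_one_le_left (by positivity) hg1
      _ ≤ _ := gap_spec n _ le_rfl
  · intro m hm
    have hz : psi m ((A ∩ atom n z0) \ cyl m z0) = 0 := by
      refine psi_eq_zero m (hmeas.diff (meas_cyl _ _)) ?_
      have one : ∀ x, x ∈ (A ∩ atom n z0) \ cyl m z0 → flip m x ∈ (A ∩ atom n z0) \ cyl m z0 := by
        rintro x ⟨hx, hxc⟩
        obtain ⟨l, hl, hxl⟩ := hstruct x hx
        have hlm : l < m := by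
          by_contra hc
          exact hxc (W_subset_cyl (by omega) hxl)
        have hfl : flip m x ∈ W l := by
          rw [W_eq_cyl] at hxl ⊢
          exact (flip_mem_cyl (by omega) _ _).mpr hxl
        have hnl : n < l := (lt_gap n).trans_le hl
        refine ⟨⟨(hA x _ (Or.inr (Or.inl ⟨l, hnl, hxl, hfl⟩))).mp hx.1, ?_⟩, ?_⟩
        · rw [atom_eq_cyl]; exact W_subset_cyl (by omega) hfl
        · rwa [flip_mem_cyl le_rfl]
      intro x
      refine ⟨fun h => ?_, one x⟩
      have e : flip m (flip m x) = x := by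
        funext i; by_cases hi : i = m <;> simp [flip, hi]
      simpa [e] using one _ h
    rw [psi_split m _ hmeas (meas_cyl m z0), hz, add_zero]
    have hsub' : A ∩ atom n z0 ∩ cyl m z0 ⊆ cyl (max m (gap n)) z0 := by
      rintro x ⟨hx, hxm⟩ i hi
      rcases lt_max_iff.mp hi with h | h
      · exact hxm i h
      · exact hsub hx i h
    calc (m : ℝ) * |psi m (A ∩ atom n z0 ∩ cyl m z0)|
        ≤ ((max m (gap n) : ℕ) : ℝ) * (1 / 2) ^ (max m (gap n)) := by
          refine mul_le_mul (by exact_mod_cast le_max_left _ _) ?_ (abs_nonneg _) (by positivity)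
          rw [← lam_cyl _ z0]
          exact (abs_psi_le _ _).trans (measureReal_mono hsub')
      _ ≤ _ := gap_spec n _ (le_max_right _ _)

theorem hasT_B0 : HasT B0 := by
  refine ⟨fun A ⟨_, hA⟩ => borel_of_meas hA.measurable, fun A hA => clopen_mem_B0 hA, ?_⟩
  intro F hF ε hε
  obtain ⟨N, hN⟩ : ∃ N, ∀ A ∈ F, Sat N A := by
    classical
    choose! f hf using hF
    exact ⟨F.sup f, fun A hA => (hf A hA).mono (Finset.le_sup hA)⟩
  obtain ⟨k0, hk0⟩ := exists_nat_ge (1 / ε)
  set k := max N k0 with hk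
  set n := lev k with hn
  have hkn : k < n := lt_lev k
  have hn1 : 1 ≤ n := by omega
  have hn0 : (0 : ℝ) < n := by exact_mod_cast hn1
  have hεn : 1 ≤ ε * n := by
    have : (k0 : ℝ) ≤ n := by exact_mod_cast (by omega : k0 ≤ n)
    rw [div_le_iff₀ hε] at hk0
    nlinarith
  have hb1 : (1 / 2 : ℝ) ^ (n + 1) / ((n : ℝ) + 1) ^ 2 ≤ ε * (1 / 2) ^ (n + 1) / n := by
    rw [div_le_div_iff₀ (by positivity) hn0]
    have h1 : (n : ℝ) ≤ ε * ((n : ℝ) + 1) ^ 2 := by nlinarith
    have h2 : (0 : ℝ) < (1 / 2) ^ (n + 1) := by positivity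
    nlinarith
  have hb2 : ε * (1 / 2 : ℝ) ^ (n + 1) / n ≤ ε * (1 / 2) ^ (n + 1) :=
    div_le_self (by positivity) (by exact_mod_cast hn1)
  refine ⟨n, hn1, fun A hA s => ?_⟩
  have hS : Sat n A := (hN A hA).mono (by omega)
  rw [lam_atom]
  by_cases hs : ∃ m ≤ n, s m = true
  · have hall : ∀ x ∈ atom n s, (s ∈ A ↔ x ∈ A) := fun x hx =>
      hS s x (Or.inl ⟨hs, fun m hm => (hx m hm).symm⟩)
    by_cases hsA : s ∈ A
    · have e1 : A ∩ atom n s = atom n s :=
        inter_eq_right.mpr fun x hx => (hall x hx).mp hsA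
      have e2 : atom n s \ A = ∅ := diff_eq_empty.mpr fun x hx => (hall x hx).mp hsA
      refine ⟨?_, fun m hm => ?_⟩
      · rw [e2]
        refine (min_le_right _ _).trans ?_
        rw [measureReal_empty]; positivity
      · rw [e1, phi_eq, atom_eq_cyl, psi_cyl (by omega)]
        simp only [abs_zero, mul_zero]; positivity
    · have e1 : A ∩ atom n s = ∅ :=
        eq_empty_of_forall_notMem fun x hx => hsA ((hall x hx.2).mpr hx.1)
      refine ⟨?_, fun m hm => ?_⟩
      · rw [e1]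
        refine (min_le_left _ _).trans ?_
        rw [measureReal_empty]; positivity
      · rw [e1, phi_eq, psi_empty]
        simp only [abs_zero, mul_zero]; positivity
  · have e : atom n s = atom n z0 := by
      push Not at hs
      have hs' : ∀ m ≤ n, s m = z0 m := fun m hm => by simpa [z0] using hs m hm
      ext x
      exact ⟨fun h m hm => (h m hm).trans (hs' m hm), fun h m hm => (h m hm).trans (hs' m hm).symm⟩
    rw [e]
    by_cases h0 : z0 ∈ A
    · obtain ⟨h1, h2⟩ := small_atom (k := k) hS.compl (by simpa using h0)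
      have e2 : atom n z0 \ A = Aᶜ ∩ atom n z0 := by rw [diff_eq, inter_comm]
      refine ⟨(min_le_right _ _).trans (by rw [e2]; exact h1.trans hb1), fun m hm => ?_⟩
      have h3 := psi_split m (atom n z0) (meas_atom _ _) hS.measurable
      have h4 : psi m (atom n z0) = 0 := by rw [atom_eq_cyl]; exact psi_cyl (by omega) _
      rw [h4, e2, inter_comm] at h3
      have h5 : psi m (A ∩ atom n z0) = - psi m (Aᶜ ∩ atom n z0) := by linarith
      rw [phi_eq, h5, abs_neg]
      exact (h2 m hm).trans (hb1.trans hb2)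
    · obtain ⟨h1, h2⟩ := small_atom (k := k) hS h0
      exact ⟨(min_le_left _ _).trans (h1.trans hb1), fun m hm => (h2 m hm).trans (hb1.trans hb2)⟩

/-- Zorn: every algebra with property (T) lies in a maximal one -/
theorem exists_maximal {B : BooleanSubalgebra (Set Cantor)} (hB : HasT B) :
    ∃ M, B ≤ M ∧ Maximal HasT M := by
  refine zorn_le_nonempty₀ {B | HasT B} ?_ B hB
  intro c hc hchain y hy
  let U : BooleanSubalgebra (Set Cantor) :=
    { carrier := {A | ∃ b ∈ c, A ∈ b}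
      supClosed' := by
        rintro A ⟨a, ha, hA⟩ A' ⟨b, hb, hA'⟩
        rcases hchain.total ha hb with h | h
        · exact ⟨b, hb, b.sup_mem (h hA) hA'⟩
        · exact ⟨a, ha, a.sup_mem hA (h hA')⟩
      infClosed' := by
        rintro A ⟨a, ha, hA⟩ A' ⟨b, hb, hA'⟩
        rcases hchain.total ha hb with h | h
        · exact ⟨b, hb, b.inf_mem (h hA) hA'⟩
        · exact ⟨a, ha, a.inf_mem hA (h hA')⟩
      compl_mem' := by
        rintro A ⟨a, ha, hA⟩
        exact ⟨a, ha, BooleanSubalgebra.compl_mem hA⟩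
      bot_mem' := ⟨y, hy, BooleanSubalgebra.bot_mem⟩ }
  refine ⟨U, ⟨?_, ?_, ?_⟩, fun z hz A hA => ⟨z, hz, hA⟩⟩
  · rintro A ⟨a, ha, hA⟩
    exact (hc ha).1 A hA
  · intro A hA
    exact ⟨y, hy, (hc hy).2.1 A hA⟩
  · intro F hF ε hε
    have : ∃ b ∈ c, ∀ A ∈ F, A ∈ b := by
      classical
      induction F using Finset.induction_on with
      | empty => exact ⟨y, hy, by simp⟩
      | insert A F _ ih =>
        obtain ⟨b, hb, hbF⟩ := ih fun A' hA' => hF A' (Finset.mem_insert_of_mem hA')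
        obtain ⟨a, ha, hA⟩ := hF A (Finset.mem_insert_self _ _)
        rcases hchain.total ha hb with h | h
        · refine ⟨b, hb, fun A' hA' => ?_⟩
          rcases Finset.mem_insert.mp hA' with rfl | h'
          · exact h hA
          · exact hbF A' h'
        · refine ⟨a, ha, fun A' hA' => ?_⟩
          rcases Finset.mem_insert.mp hA' with rfl | h'
          · exact hA
          · exact h (hbF A' h')
    obtain ⟨b, hb, hbF⟩ := this
    exact (hc hb).2.2 F hbF ε hε

end Pool.Agent.H976Z.PropT
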