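import Mathlib

/-!
Definitions for property (T) subalgebras of the Borel algebra of the Cantor space and for the
Grothendieck property of a Boolean algebra.
-/

open MeasureTheory Filter Topology

namespace Pool.Agent.H976Z.PropT

/-- The Cantor space `2^ℕ` with the product topology. -/
abbrev Cantor : Type := ℕ → Bool

/-- The standard product measure `λ`: product of uniform probability measures on `{0,1}`. -/
noncomputable def lam : Measure Cantor :=
  Measure.infinitePi fun _ : ℕ => ProbabilityTheory.uniformOn (Set.univ : Set Bool)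

/-- `V m i = {x : x(m) = i}`. -/
def V (m : ℕ) (i : Bool) : Set Cantor := {x | x m = i}

/-- The atom of the finite algebra `𝒜_n` (generated by the `V m i`, `m ≤ n`) containing `s`. -/
def atom (n : ℕ) (s : Cantor) : Set Cantor := {x | ∀ m ≤ n, x m = s m}

/-- `φ_m(A) = |λ(A ∩ V_m^0) - λ(A ∩ V_m^1)|`. -/
noncomputable def phi (m : ℕ) (A : Set Cantor) : ℝ :=
  |lam.real (A ∩ V m false) - lam.real (A ∩ V m true)|

/-- `B` is a subalgebra of the Borel algebra containing all clopen sets, with property (T). -/
def HasT (B : BooleanSubalgebra (Set Cantor)) : Prop :=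
  (∀ A ∈ B, MeasurableSet[borel Cantor] A) ∧
  (∀ A : Set Cantor, IsClopen A → A ∈ B) ∧
  ∀ F : Finset (Set Cantor), (∀ A ∈ F, A ∈ B) → ∀ ε : ℝ, 0 < ε →
    ∃ n : ℕ, 1 ≤ n ∧ ∀ A ∈ F, ∀ s : Cantor,
      min (lam.real (A ∩ atom n s)) (lam.real (atom n s \ A)) ≤ ε * lam.real (atom n s) / n ∧
      ∀ m : ℕ, n < m → (m : ℝ) * phi m (A ∩ atom n s) ≤ ε * lam.real (atom n s)

/-- The Stone space of a Boolean algebra `A`: the Boolean homomorphisms `A → {0,1}`
(equivalently the ultrafilters of `A`), as a subspace of the product space `A → Bool`. -/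
def Stone (A : Type) [BooleanAlgebra A] : Set (A → Bool) :=
  {p | p ⊤ = true ∧ p ⊥ = false ∧ (∀ a b, p (a ⊓ b) = (p a && p b)) ∧
    ∀ a b, p (a ⊔ b) = (p a || p b)}

theorem isClosed_stone (A : Type) [BooleanAlgebra A] : IsClosed (Stone A) := by
  have h1 : IsClosed {p : A → Bool | p ⊤ = true} :=
    isClosed_eq (continuous_apply _) continuous_const
  have h2 : IsClosed {p : A → Bool | p ⊥ = false} :=
    isClosed_eq (continuous_apply _) continuous_const
  have hb : ∀ (g : Bool → Bool → Bool) (a b : A),
      Continuous fun p : A → Bool => g (p a) (p b) := by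
    intro g a b
    have h : Continuous fun q : Bool × Bool => g q.1 q.2 := continuous_of_discreteTopology
    have h' : Continuous fun p : A → Bool => (p a, p b) :=
      (continuous_apply a).prodMk (continuous_apply b)
    exact h.comp h'
  have h3 : IsClosed {p : A → Bool | ∀ a b, p (a ⊓ b) = (p a && p b)} := by
    simp only [Set.ofPred_forall]
    exact isClosed_iInter fun a => isClosed_iInter fun b =>
      isClosed_eq (continuous_apply _) (hb _ a b)
  have h4 : IsClosed {p : A → Bool | ∀ a b, p (a ⊔ b) = (p a || p b)} := by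
    simp only [Set.ofPred_forall]
    exact isClosed_iInter fun a => isClosed_iInter fun b =>
      isClosed_eq (continuous_apply _) (hb _ a b)
  exact h1.inter (h2.inter (h3.inter h4))

/-- The Stone space is compact (so `C(Stone A, ℝ)` carries the sup norm). -/
instance compactSpace_stone (A : Type) [BooleanAlgebra A] : CompactSpace (Stone A) :=
  isCompact_iff_compactSpace.mp (isClosed_stone A).isCompact

/-- A real Banach space is Grothendieck if every weak-star convergent sequence in its dual
converges weakly. -/
def IsGrothendieckSpace (X : Type) [NormedAddCommGroup X] [NormedSpace ℝ X] : Prop :=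
  ∀ f : ℕ → StrongDual ℝ X,
    (∃ g : StrongDual ℝ X, ∀ x : X, Tendsto (fun n => f n x) atTop (𝓝 (g x))) →
    ∃ h : StrongDual ℝ X, ∀ Φ : StrongDual ℝ (StrongDual ℝ X),
      Tendsto (fun n => Φ (f n)) atTop (𝓝 (Φ h))

/-- A Boolean algebra has the Grothendieck property if `C(St(A))` is a Grothendieck space. -/
def HasGrothendieck (A : Type) [BooleanAlgebra A] : Prop :=
  IsGrothendieckSpace C(Stone A, ℝ)

end Pool.Agent.H976Z.PropT
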