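import Pool.Agent.H976Z.PropT.Null

open MeasureTheory Filter Topology Set

namespace Pool.Agent.H976Z.PropT

section Stone
variable {A : Type} [BooleanAlgebra A]

/-- indicator function of the clopen subset of the Stone space given by `a` -/
noncomputable def ind (a : A) : C(Stone A, ℝ) :=
  ⟨fun p => if p.1 a = true then 1 else 0,
    (continuous_of_discreteTopology (f := fun b : Bool => if b = true then (1 : ℝ) else 0)).comp
      ((continuous_apply a).comp continuous_subtype_val)⟩

theorem ind_apply (a : A) (p : Stone A) : ind a p = if p.1 a = true then 1 else 0 := rfl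

theorem ind_top : ind (⊤ : A) = 1 := by
  ext p; simp [ind_apply, p.2.1]

theorem ind_inf (a b : A) : ind (a ⊓ b) = ind a * ind b := by
  ext p
  simp only [ind_apply, ContinuousMap.mul_apply, p.2.2.2.1 a b]
  cases p.1 a <;> cases p.1 b <;> simp

theorem norm_ind_le (a : A) : ‖ind a‖ ≤ 1 := by
  refine (ContinuousMap.norm_le _ zero_le_one).mpr fun p => ?_
  rw [ind_apply]; split_ifs <;> simp

theorem dense_span_ind :
    Dense ((Submodule.span ℝ (range (ind (A := A))) : Submodule ℝ C(Stone A, ℝ)) :
      Set C(Stone A, ℝ)) := by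
  let M : Submonoid C(Stone A, ℝ) :=
    { carrier := range ind
      one_mem' := ⟨⊤, ind_top⟩
      mul_mem' := by
        rintro _ _ ⟨a, rfl⟩ ⟨b, rfl⟩
        exact ⟨a ⊓ b, ind_inf a b⟩ }
  have hsep : (Algebra.adjoin ℝ (range (ind (A := A)))).SeparatesPoints := by
    intro p q hpq
    obtain ⟨a, ha⟩ : ∃ a, p.1 a ≠ q.1 a := by
      by_contra hc
      push Not at hc
      exact hpq (Subtype.ext (funext hc))
    refine ⟨ind a, ⟨ind a, Algebra.subset_adjoin ⟨a, rfl⟩, rfl⟩, ?_⟩
    simp only [ind_apply]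
    revert ha
    cases p.1 a <;> cases q.1 a <;> simp
  have htop := ContinuousMap.subalgebra_topologicalClosure_eq_top_of_separatesPoints _ hsep
  have h1 : (Algebra.adjoin ℝ (range (ind (A := A)))).toSubmodule =
      Submodule.span ℝ (range (ind (A := A))) := by
    rw [Algebra.adjoin_eq_span]
    congr 1
    exact congrArg (fun N : Submonoid C(Stone A, ℝ) => (N : Set C(Stone A, ℝ))) M.closure_eq
  rw [← h1]
  intro f
  have : f ∈ (Algebra.adjoin ℝ (range (ind (A := A)))).topologicalClosure := by
    rw [htop]; trivial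
  exact this

end Stone

variable {B : BooleanSubalgebra (Set Cantor)}

open Classical in
/-- the principal ultrafilter of a point -/
noncomputable def iota (B : BooleanSubalgebra (Set Cantor)) (x : Cantor) : Stone B :=
  ⟨fun a => decide (x ∈ (a : Set Cantor)), by
    refine ⟨by simp, by simp, fun a b => ?_, fun a b => ?_⟩
    · simp [Bool.decide_and]
    · simp [Bool.decide_or]⟩

theorem ind_iota (a : B) (x : Cantor) :
    ind a (iota B x) = (a : Set Cantor).indicator (fun _ => (1 : ℝ)) x := by
  classical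
  simp [ind_apply, iota, indicator_apply]

theorem measurable_comp_iota (hB : HasT B) (f : C(Stone B, ℝ)) :
    Measurable fun x => f (iota B x) := by
  have hspan : ∀ g ∈ Submodule.span ℝ (range (ind (A := B))),
      Measurable fun x => g (iota B x) := by
    intro g hg
    induction hg using Submodule.span_induction with
    | mem g hg =>
      obtain ⟨a, rfl⟩ := hg
      simp only [ind_iota]
      exact measurable_const.indicator (meas_of_borel (hB.1 a a.2))
    | zero => exact measurable_const
    | add g h _ _ ihg ihh => exact ihg.add ihh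
    | smul c g _ ih => exact ih.const_smul c
  obtain ⟨g, hg, hlim⟩ := mem_closure_iff_seq_limit.mp (dense_span_ind (A := B) f)
  refine measurable_of_tendsto_metrizable (f := fun n x => g n (iota B x))
    (fun n => hspan _ (hg n)) (tendsto_pi_nhds.mpr fun x => ?_)
  exact ((continuous_eval_const (iota B x)).tendsto f).comp hlim

theorem integrable_comp_iota (hB : HasT B) (f : C(Stone B, ℝ)) (E : Set Cantor) :
    Integrable (fun x => f (iota B x)) (lam.restrict E) :=
  Integrable.of_bound (measurable_comp_iota hB f).aestronglyMeasurable ‖f‖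
    (Eventually.of_forall fun _ => f.norm_coe_le_norm _)

/-- integration over `E` as a functional on `C(St B)` -/
noncomputable def intOn (hB : HasT B) (E : Set Cantor) : StrongDual ℝ C(Stone B, ℝ) :=
  LinearMap.mkContinuous
    { toFun := fun f => ∫ x in E, f (iota B x) ∂lam
      map_add' := fun f g => integral_add (integrable_comp_iota hB f E) (integrable_comp_iota hB g E)
      map_smul' := fun c f => integral_smul c _ }
    (lam.real E) (fun f => by
      rw [mul_comm]
      exact norm_setIntegral_le_of_norm_le_const (measure_lt_top _ _)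
        fun x _ => f.norm_coe_le_norm _)

theorem intOn_apply (hB : HasT B) (E : Set Cantor) (f : C(Stone B, ℝ)) :
    intOn hB E f = ∫ x in E, f (iota B x) ∂lam := rfl

theorem abs_intOn_le (hB : HasT B) (E : Set Cantor) (f : C(Stone B, ℝ)) :
    |intOn hB E f| ≤ ‖f‖ * lam.real E :=
  norm_setIntegral_le_of_norm_le_const (measure_lt_top _ _) fun _ _ => f.norm_coe_le_norm _

theorem intOn_ind (hB : HasT B) (E : Set Cantor) (a : B) :
    intOn hB E (ind a) = lam.real ((a : Set Cantor) ∩ E) := by
  have ha : MeasurableSet (a : Set Cantor) := meas_of_borel (hB.1 a a.2)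
  rw [intOn_apply]
  simp only [ind_iota]
  rw [integral_indicator_const _ ha, measureReal_restrict_apply ha]
  simp

/-- the functionals -/
noncomputable def muL (hB : HasT B) (k : ℕ) : StrongDual ℝ C(Stone B, ℝ) :=
  (mk k : ℝ) • (intOn hB (W (lev k) ∩ V (mk k) false) - intOn hB (W (lev k) ∩ V (mk k) true))

theorem muL_ind (hB : HasT B) (k : ℕ) (a : B) : muL hB k (ind a) = mu k a := by
  simp only [muL, ContinuousLinearMap.smul_apply, ContinuousLinearMap.sub_apply, intOn_ind,
    smul_eq_mul, mu, psi, inter_assoc]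

theorem mk_mul (k : ℕ) (i : Bool) : (mk k : ℝ) * lam.real (W (lev k) ∩ V (mk k) i) = 1 / 2 := by
  rw [W_eq_cyl, lam_cyl_inter_V (lev_lt_mk k).le]
  simp only [mk, Nat.cast_pow, Nat.cast_ofNat]
  rw [← mul_div_assoc, ← mul_pow]; norm_num

theorem abs_muL_le (hB : HasT B) (k : ℕ) (f : C(Stone B, ℝ)) : |muL hB k f| ≤ ‖f‖ := by
  have h1 := abs_intOn_le hB (W (lev k) ∩ V (mk k) false) f
  have h2 := abs_intOn_le hB (W (lev k) ∩ V (mk k) true) f
  have h3 := mk_mul k false
  have h4 := mk_mul k true
  simp only [muL, ContinuousLinearMap.smul_apply, ContinuousLinearMap.sub_apply, smul_eq_mul]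
  rw [abs_mul, Nat.abs_cast]
  calc _ ≤ (mk k : ℝ) * (‖f‖ * lam.real (W (lev k) ∩ V (mk k) false) +
        ‖f‖ * lam.real (W (lev k) ∩ V (mk k) true)) :=
        mul_le_mul_of_nonneg_left ((abs_sub _ _).trans (add_le_add h1 h2)) (Nat.cast_nonneg _)
    _ = ‖f‖ * ((mk k : ℝ) * lam.real (W (lev k) ∩ V (mk k) false) +
        (mk k : ℝ) * lam.real (W (lev k) ∩ V (mk k) true)) := by ring
    _ = ‖f‖ := by rw [h3, h4]; ring

theorem muL_weakstar (hB : HasT B) (hW : ∀ Z, WU Z ∈ B) (f : C(Stone B, ℝ)) :
    Tendsto (fun k => muL hB k f) atTop (𝓝 0) := by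
  have hspan : ∀ g ∈ Submodule.span ℝ (range (ind (A := B))),
      Tendsto (fun k => muL hB k g) atTop (𝓝 0) := by
    intro g hg
    induction hg using Submodule.span_induction with
    | mem g hg =>
      obtain ⟨a, rfl⟩ := hg
      simp only [muL_ind]
      exact mu_tendsto hB hW a.2
    | zero => simp
    | add g h _ _ ihg ihh => simpa using ihg.add ihh
    | smul c g _ ih => simpa using ih.const_smul c
  rw [Metric.tendsto_atTop]
  intro ε hε
  obtain ⟨g, hg, hfg⟩ := Metric.mem_closure_iff.mp (dense_span_ind (A := B) f) (ε / 2)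
    (by positivity)
  obtain ⟨N, hN⟩ := Metric.tendsto_atTop.mp (hspan g hg) (ε / 2) (by positivity)
  refine ⟨N, fun n hn => ?_⟩
  have h1 := hN n hn
  have h2 := abs_muL_le hB n (f - g)
  rw [dist_eq_norm] at hfg
  rw [map_sub] at h2
  rw [Real.dist_eq, sub_zero] at h1 ⊢
  have : muL hB n f = (muL hB n f - muL hB n g) + muL hB n g := by ring
  rw [this]
  exact (abs_add_le _ _).trans_lt (by linarith)

/-- the test clopen sets -/
def D (N : ℕ) : Set Cantor := ⋃ j ∈ Finset.range N, W (lev j) ∩ V (mk j) false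

theorem isClopen_D (N : ℕ) : IsClopen (D N) :=
  isClopen_biUnion_finset fun j _ => (isClopen_W _).inter (isClopen_V _ _)

theorem mu_D {k N : ℕ} (h : k < N) : mu k (D N) = 1 / 2 := by
  have e : D N ∩ W (lev k) = W (lev k) ∩ V (mk k) false := by
    ext x
    simp only [D, mem_inter_iff, mem_iUnion, Finset.mem_range, exists_prop]
    constructor
    · rintro ⟨⟨j, -, hj, hv⟩, hk⟩
      obtain rfl := lev_strictMono.injective (W_unique hj hk)
      exact ⟨hk, hv⟩
    · rintro ⟨hk, hv⟩
      exact ⟨⟨k, h, hk, hv⟩, hk⟩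
  have e2 : W (lev k) ∩ V (mk k) false ∩ V (mk k) true = ∅ := by
    refine eq_empty_of_forall_notMem ?_
    rintro x ⟨⟨-, h1⟩, h2⟩
    have h1' : x (mk k) = false := h1
    have h2' : x (mk k) = true := h2
    rw [h1'] at h2'; cases h2'
  rw [mu, psi, e, e2, inter_assoc, inter_self, measureReal_empty, sub_zero, mk_mul]

theorem exists_cluster {E : Type} [NormedAddCommGroup E] [NormedSpace ℝ E]
    (e : ℕ → StrongDual ℝ E) (he : ∀ N y, ‖e N y‖ ≤ 1 * ‖y‖) :
    ∃ Φ : StrongDual ℝ E, ∀ y c, (∀ᶠ N in atTop, e N y = c) → Φ y = c := by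
  have hK := WeakDual.isCompact_closedBall (𝕜 := ℝ) (E := E) 0 1
  have he' : ∀ N, StrongDual.toWeakDual (e N) ∈ WeakDual.toStrongDual ⁻¹' Metric.closedBall
      (0 : StrongDual ℝ E) 1 := fun N =>
    mem_closedBall_zero_iff.mpr ((e N).opNorm_le_bound zero_le_one (he N))
  obtain ⟨Φ, -, hΦ⟩ := hK.exists_mapClusterPt (f := atTop)
    (u := fun N => StrongDual.toWeakDual (e N))
    (by rw [le_principal_iff, mem_map]; exact Eventually.of_forall he')
  refine ⟨WeakDual.toStrongDual Φ, fun y c h => ?_⟩
  have hcl : IsClosed {Ψ : WeakDual ℝ E | Ψ y = c} :=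
    isClosed_eq (WeakDual.eval_continuous _) continuous_const
  exact hcl.mem_of_mapClusterPt hΦ h

theorem not_grothendieckSpace {X : Type} [NormedAddCommGroup X] [NormedSpace ℝ X]
    (f : ℕ → StrongDual ℝ X) (x : ℕ → X) (hx : ∀ N, ‖x N‖ ≤ 1)
    (hf : ∀ y, Tendsto (fun k => f k y) atTop (𝓝 0))
    (hfx : ∀ k N, k < N → f k (x N) = 1 / 2) : ¬ IsGrothendieckSpace X := by
  intro hG
  obtain ⟨h, hh⟩ := hG f ⟨0, fun y => by simpa using hf y⟩
  have h0 : h = 0 := by
    ext y
    have := hh (NormedSpace.inclusionInDoubleDual ℝ _ y)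
    simp only [NormedSpace.dual_def] at this
    simpa using tendsto_nhds_unique this (hf y)
  obtain ⟨Φ, hΦ⟩ := exists_cluster (E := StrongDual ℝ X)
    (fun N => NormedSpace.inclusionInDoubleDual ℝ X (x N)) (fun N y => by
      rw [NormedSpace.dual_def, mul_comm]
      exact (y.le_opNorm _).trans (mul_le_mul_of_nonneg_left (hx N) (norm_nonneg _)))
  have hval : ∀ k, Φ (f k) = 1 / 2 := by
    intro k
    refine hΦ _ _ ?_
    filter_upwards [eventually_gt_atTop k] with N hN
    exact hfx k N hN
  have := hh Φ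
  rw [h0, map_zero] at this
  have h2 : Tendsto (fun k => Φ (f k)) atTop (𝓝 (1 / 2)) :=
    tendsto_const_nhds.congr fun k => (hval k).symm
  have := tendsto_nhds_unique this h2
  norm_num at this

theorem not_grothendieck (hB : HasT B) (hW : ∀ Z, WU Z ∈ B) : ¬ HasGrothendieck B :=
  not_grothendieckSpace (muL hB) (fun N => ind (⟨D N, hB.2.1 _ (isClopen_D N)⟩ : B))
    (fun _ => norm_ind_le _) (muL_weakstar hB hW)
    (fun k N h => by rw [muL_ind]; exact mu_D h)

theorem main : ∃ B : BooleanSubalgebra (Set Cantor), Maximal HasT B ∧ ¬ HasGrothendieck B := by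
  obtain ⟨M, hle, hM⟩ := exists_maximal hasT_B0
  exact ⟨M, hM, not_grothendieck hM.1 fun Z => hle (WU_mem_B0 Z)⟩

end Pool.Agent.H976Z.PropT
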