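import Pool.Agent.H976Z.PropT.Defs

open MeasureTheory Filter Topology Set

namespace Pool.Agent.H976Z.PropT

instance coinProb : IsProbabilityMeasure (ProbabilityTheory.uniformOn (Set.univ : Set Bool)) :=
  ProbabilityTheory.uniformOn_isProbabilityMeasure Set.finite_univ Set.univ_nonempty

instance lamProb : IsProbabilityMeasure lam := by
  unfold lam; infer_instance

theorem coin_singleton (b : Bool) :
    ProbabilityTheory.uniformOn (Set.univ : Set Bool) {b} = 1 / 2 := by
  rw [ProbabilityTheory.uniformOn_univ]
  simp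

/-- cylinder on the first `n` coordinates -/
def cyl (n : ℕ) (s : Cantor) : Set Cantor := {x | ∀ m < n, x m = s m}

theorem atom_eq_cyl (n : ℕ) (s : Cantor) : atom n s = cyl (n + 1) s := by
  ext x; simp [atom, cyl, Nat.lt_succ_iff]

theorem cyl_eq_pi (n : ℕ) (s : Cantor) :
    cyl n s = Set.pi (Finset.range n : Set ℕ) (fun m => {s m}) := by
  ext x; simp [cyl]

theorem isClopen_V (m : ℕ) (i : Bool) : IsClopen (V m i) :=
  (isClopen_discrete ({i} : Set Bool)).preimage (continuous_apply m)

theorem isClopen_cyl (n : ℕ) (s : Cantor) : IsClopen (cyl n s) := by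
  have : cyl n s = ⋂ m ∈ Finset.range n, V m (s m) := by
    ext x; simp [cyl, V]
  rw [this]
  exact isClopen_biInter_finset fun m _ => isClopen_V m _

theorem isClopen_atom (n : ℕ) (s : Cantor) : IsClopen (atom n s) := by
  rw [atom_eq_cyl]; exact isClopen_cyl _ _

theorem meas_V (m : ℕ) (i : Bool) : MeasurableSet (V m i) := (isClopen_V m i).isOpen.measurableSet

theorem meas_cyl (n : ℕ) (s : Cantor) : MeasurableSet (cyl n s) :=
  (isClopen_cyl n s).isOpen.measurableSet

theorem meas_atom (n : ℕ) (s : Cantor) : MeasurableSet (atom n s) :=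
  (isClopen_atom n s).isOpen.measurableSet

theorem lam_cyl (n : ℕ) (s : Cantor) : lam.real (cyl n s) = (1 / 2) ^ n := by
  rw [cyl_eq_pi, Measure.real, lam, Measure.infinitePi_pi _ (fun i _ => MeasurableSet.singleton _)]
  simp only [coin_singleton, Finset.prod_const, Finset.card_range]
  simp

theorem lam_atom (n : ℕ) (s : Cantor) : lam.real (atom n s) = (1 / 2) ^ (n + 1) := by
  rw [atom_eq_cyl, lam_cyl]

/-- flip of coordinate `m` -/
def flip (m : ℕ) (x : Cantor) : Cantor := fun i => if i = m then !(x i) else x i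

theorem flip_preserving (m : ℕ) : MeasurePreserving (flip m) lam lam := by
  have hf : ∀ i : ℕ, Measurable (fun b : Bool => if i = m then !b else b) :=
    fun i => measurable_of_countable _
  refine ⟨measurable_pi_lambda _ fun i => (hf i).comp (measurable_pi_apply i), ?_⟩
  have := Measure.infinitePi_map_pi
    (fun _ : ℕ => ProbabilityTheory.uniformOn (Set.univ : Set Bool)) hf
  unfold lam
  refine this.trans ?_
  congr 1
  funext i
  refine Measure.ext_of_singleton fun b => ?_
  rw [Measure.map_apply (hf i) (MeasurableSet.singleton _)]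
  have : (fun b : Bool => if i = m then !b else b) ⁻¹' {b} = {if i = m then !b else b} := by
    ext c
    by_cases h : i = m <;> cases b <;> cases c <;> simp [h]
  rw [this, coin_singleton, coin_singleton]

/-- signed version of `φ` -/
noncomputable def psi (m : ℕ) (A : Set Cantor) : ℝ :=
  lam.real (A ∩ V m false) - lam.real (A ∩ V m true)

theorem phi_eq (m : ℕ) (A : Set Cantor) : phi m A = |psi m A| := rfl

theorem psi_union (m : ℕ) {A B : Set Cantor} (h : Disjoint A B) (hB : MeasurableSet B) :
    psi m (A ∪ B) = psi m A + psi m B := by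
  unfold psi
  rw [union_inter_distrib_right, union_inter_distrib_right,
    measureReal_union (h.mono inter_subset_left inter_subset_left) (hB.inter (meas_V _ _)),
    measureReal_union (h.mono inter_subset_left inter_subset_left) (hB.inter (meas_V _ _))]
  ring

theorem psi_split (m : ℕ) (A : Set Cantor) {E : Set Cantor} (hA : MeasurableSet A)
    (hE : MeasurableSet E) : psi m A = psi m (A ∩ E) + psi m (A \ E) := by
  rw [← psi_union m (disjoint_sdiff_right.mono_left inter_subset_right) (hA.diff hE),
    inter_union_diff]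

theorem abs_psi_le (m : ℕ) (A : Set Cantor) : |psi m A| ≤ lam.real A := by
  have h1 : lam.real (A ∩ V m false) ≤ lam.real A := measureReal_mono inter_subset_left
  have h2 : lam.real (A ∩ V m true) ≤ lam.real A := measureReal_mono inter_subset_left
  have h3 : 0 ≤ lam.real (A ∩ V m false) := measureReal_nonneg
  have h4 : 0 ≤ lam.real (A ∩ V m true) := measureReal_nonneg
  unfold psi
  rw [abs_le]; constructor <;> linarith

theorem psi_eq_zero (m : ℕ) {A : Set Cantor} (hA : MeasurableSet A)
    (h : ∀ x, flip m x ∈ A ↔ x ∈ A) : psi m A = 0 := by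
  have : flip m ⁻¹' (A ∩ V m true) = A ∩ V m false := by
    ext x
    simp only [mem_preimage, mem_inter_iff, h, V, mem_setOf_eq, flip, if_true]
    cases x m <;> simp
  unfold psi
  rw [← this, (flip_preserving m).measureReal_preimage (hA.inter (meas_V _ _)).nullMeasurableSet,
    sub_self]

theorem flip_mem_cyl {m n : ℕ} (h : n ≤ m) (s x : Cantor) : flip m x ∈ cyl n s ↔ x ∈ cyl n s := by
  simp only [cyl, mem_setOf_eq, flip]
  refine forall_congr' fun i => forall_congr' fun hi => ?_
  rw [if_neg (by omega)]

theorem psi_cyl {m n : ℕ} (h : n ≤ m) (s : Cantor) : psi m (cyl n s) = 0 :=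
  psi_eq_zero m (meas_cyl n s) (flip_mem_cyl h s)

theorem psi_empty (m : ℕ) : psi m ∅ = 0 := by simp [psi]

theorem lam_cyl_inter_V {m n : ℕ} (h : n ≤ m) (s : Cantor) (i : Bool) :
    lam.real (cyl n s ∩ V m i) = (1 / 2) ^ n / 2 := by
  have h0 := psi_cyl h s
  have h1 : lam.real (cyl n s ∩ V m false) + lam.real (cyl n s ∩ V m true) = (1 / 2) ^ n := by
    rw [← measureReal_union _ ((meas_cyl _ _).inter (meas_V _ _)), ← lam_cyl n s]
    · congr 1
      ext x
      simp only [V, mem_union, mem_inter_iff, mem_setOf_eq]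
      cases x m <;> simp
    · rw [Set.disjoint_left]
      rintro x ⟨_, h1⟩ ⟨_, h2⟩
      simp only [V, mem_setOf_eq] at h1 h2
      rw [h1] at h2; cases h2
  unfold psi at h0
  cases i <;> linarith

theorem cyl_succ_split (n : ℕ) (s : Cantor) (i : Bool) :
    cyl n s ∩ V n i = cyl (n + 1) (Function.update s n i) := by
  ext x
  simp only [cyl, V, mem_inter_iff, mem_setOf_eq]
  constructor
  · rintro ⟨h1, h2⟩ m hm
    rcases Nat.lt_succ_iff_lt_or_eq.mp hm with h | h
    · rw [Function.update_of_ne h.ne, h1 m h]
    · subst h; simp [h2]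
  · intro h
    refine ⟨fun m hm => ?_, ?_⟩
    · have := h m (by omega)
      rwa [Function.update_of_ne hm.ne] at this
    · simpa using h n (by omega)

/-- summing a local bound over all cylinders of a level -/
theorem psi_bound_of_cyl (m : ℕ) {A : Set Cantor} (hA : MeasurableSet A) (c : ℝ) (n : ℕ)
    (h : ∀ s, |psi m (A ∩ cyl n s)| ≤ c * (1 / 2) ^ n) : |psi m A| ≤ c := by
  induction n with
  | zero =>
    have := h (fun _ => false)
    have e : cyl 0 (fun _ => false) = univ := by ext x; simp [cyl]
    simpa [e] using this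
  | succ n ih =>
    refine ih fun s => ?_
    have e1 : A ∩ cyl n s ∩ V n false = A ∩ cyl (n + 1) (Function.update s n false) := by
      rw [inter_assoc, cyl_succ_split]
    have e2 : (A ∩ cyl n s) \ V n false = A ∩ cyl (n + 1) (Function.update s n true) := by
      rw [← cyl_succ_split]
      ext x
      simp only [V, mem_diff, mem_inter_iff, mem_setOf_eq]
      cases x n <;> simp
    rw [psi_split m _ (hA.inter (meas_cyl _ _)) (meas_V n false), e1, e2]
    have h1 := h (Function.update s n false)
    have h2 := h (Function.update s n true)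
    calc _ ≤ _ := abs_add_le _ _
      _ ≤ c * (1 / 2) ^ (n + 1) + c * (1 / 2) ^ (n + 1) := add_le_add h1 h2
      _ = _ := by ring

theorem meas_of_borel {A : Set Cantor} (h : MeasurableSet[borel Cantor] A) : MeasurableSet A := by
  rwa [← BorelSpace.measurable_eq (α := Cantor)] at h

theorem borel_of_meas {A : Set Cantor} (h : MeasurableSet A) : MeasurableSet[borel Cantor] A := by
  rwa [← BorelSpace.measurable_eq (α := Cantor)]

/-- in an algebra with property (T), `m φ_m(A) → 0` -/
theorem HasT.decay {B : BooleanSubalgebra (Set Cantor)} (hB : HasT B) {A : Set Cantor}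
    (hA : A ∈ B) {ε : ℝ} (hε : 0 < ε) : ∃ n : ℕ, ∀ m : ℕ, n < m → (m : ℝ) * |psi m A| ≤ ε := by
  obtain ⟨n, -, hn⟩ := hB.2.2 {A} (by simpa using hA) ε hε
  refine ⟨n, fun m hm => ?_⟩
  have hm0 : (0 : ℝ) < m := by exact_mod_cast (by omega : 0 < m)
  have := psi_bound_of_cyl m (meas_of_borel (hB.1 A hA)) (ε / m) (n + 1) fun s => by
    have := (hn A (by simp) s).2 m hm
    rw [lam_atom, phi_eq, atom_eq_cyl] at this
    rw [div_mul_eq_mul_div, le_div_iff₀ hm0, mul_comm]
    exact this
  rw [le_div_iff₀ hm0, mul_comm] at this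
  exact this

end Pool.Agent.H976Z.PropT
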