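import Pool.Agent.H976Z.PropT.Base

open MeasureTheory Filter Topology Set

namespace Pool.Agent.H976Z.PropT

/-- the coordinate tested on `W (lev k)` -/
noncomputable def mk (k : ℕ) : ℕ := 2 ^ (lev k + 1)

theorem lev_lt_mk (k : ℕ) : lev k + 1 < mk k := Nat.lt_two_pow_self

/-- the normalised signed measures -/
noncomputable def mu (k : ℕ) (A : Set Cantor) : ℝ := (mk k : ℝ) * psi (mk k) (A ∩ W (lev k))

theorem meas_WU (Z : Set ℕ) : MeasurableSet (WU Z) := meas_of_borel (hasT_B0.1 _ (WU_mem_B0 Z))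

theorem mu_tendsto {B : BooleanSubalgebra (Set Cantor)} (hB : HasT B) (hW : ∀ Z, WU Z ∈ B)
    {A : Set Cantor} (hA : A ∈ B) : Tendsto (fun k => mu k A) atTop (𝓝 0) := by
  classical
  by_contra hcon
  rw [Metric.tendsto_atTop] at hcon
  push Not at hcon
  obtain ⟨δ, hδ, hfreq⟩ := hcon
  simp only [Real.dist_eq, sub_zero] at hfreq
  have hAm : MeasurableSet A := meas_of_borel (hB.1 A hA)
  have step : ∀ T : Finset ℕ, ∃ k, (∀ j ∈ T, j < k) ∧ δ ≤ |mu k A| ∧
      (mk k : ℝ) * |psi (mk k) (A ∩ WU T)| ≤ δ / 4 := by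
    intro T
    obtain ⟨n, hn⟩ := hB.decay (B.inf_mem hA (hW T)) (show 0 < δ / 4 by positivity)
    obtain ⟨k, hk, hk'⟩ := hfreq (max (T.sup id + 1) n)
    refine ⟨k, fun j hj => ?_, hk', hn _ ?_⟩
    · have := Finset.le_sup (f := id) hj
      simp only [id] at this
      omega
    · have := lev_lt_mk k
      have := lt_lev k
      omega
  choose nx hnx1 hnx2 hnx3 using step
  let T : ℕ → Finset ℕ := fun i => Nat.rec ∅ (fun _ S => insert (nx S) S) i
  have hT : ∀ i, T (i + 1) = insert (nx (T i)) (T i) := fun i => rfl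
  have hTmono : Monotone T := monotone_nat_of_le_succ fun i => by
    rw [hT]; exact Finset.subset_insert _ _
  have hlater : ∀ i d, ∀ j ∈ T (i + 1 + d), j ∈ T (i + 1) ∨ nx (T i) < j := by
    intro i d
    induction d with
    | zero => exact fun j hj => Or.inl hj
    | succ d ih =>
      intro j hj
      rw [← add_assoc, hT] at hj
      rcases Finset.mem_insert.mp hj with rfl | h
      · refine Or.inr (hnx1 _ _ (hTmono (Nat.le_add_right (i + 1) d) ?_))
        rw [hT]; exact Finset.mem_insert_self _ _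
      · exact ih j h
  have hgrow : ∀ i, i ≤ nx (T i) := by
    intro i
    induction i with
    | zero => exact Nat.zero_le _
    | succ i ih =>
      have : nx (T i) < nx (T (i + 1)) := hnx1 _ _ (by rw [hT]; exact Finset.mem_insert_self _ _)
      omega
  let Z : Set ℕ := {j | ∃ i, j ∈ T i}
  have hZ : ∀ i, ∀ j ∈ Z, j ∈ T i ∨ j = nx (T i) ∨ nx (T i) < j := by
    rintro i j ⟨i', hj⟩
    have h1 : j ∈ T (i + 1 + i') := hTmono (by omega) hj
    rcases hlater i i' j h1 with h | h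
    · rw [hT] at h
      rcases Finset.mem_insert.mp h with h | h
      · exact Or.inr (Or.inl h)
      · exact Or.inl h
    · exact Or.inr (Or.inr h)
  obtain ⟨n, hn⟩ := hB.decay (B.inf_mem hA (hW Z)) (show 0 < δ / 4 by positivity)
  obtain ⟨i0, hi0⟩ := exists_nat_ge (4 / δ)
  set i := max n i0 with hi
  set k := nx (T i) with hk
  have hik : i ≤ k := hgrow i
  have hkl := lt_lev k
  have hlm := lev_lt_mk k
  have h1 : (mk k : ℝ) * |psi (mk k) (A ∩ WU Z)| ≤ δ / 4 := hn _ (by omega)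
  have h2 := hnx2 (T i)
  have h3 := hnx3 (T i)
  rw [← hk] at h2 h3
  have hkZ : k ∈ Z := ⟨i + 1, by rw [hT]; exact Finset.mem_insert_self _ _⟩
  -- decomposition
  have hG : MeasurableSet (A ∩ WU Z) := hAm.inter (meas_WU Z)
  have s1 := psi_split (mk k) (A ∩ WU Z) hG (meas_W (lev k))
  have s2 := psi_split (mk k) ((A ∩ WU Z) \ W (lev k)) (hG.diff (meas_W _)) (meas_WU (SetLike.coe (T i)))
  have e1 : A ∩ WU Z ∩ W (lev k) = A ∩ W (lev k) := by
    ext x
    exact ⟨fun h => ⟨h.1.1, h.2⟩, fun h => ⟨⟨h.1, k, hkZ, h.2⟩, h.2⟩⟩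
  have e2 : ((A ∩ WU Z) \ W (lev k)) ∩ WU (SetLike.coe (T i)) = A ∩ WU (SetLike.coe (T i)) := by
    ext x
    refine ⟨fun h => ⟨h.1.1.1, h.2⟩, ?_⟩
    rintro ⟨hx, j, hj, hxj⟩
    refine ⟨⟨⟨hx, j, ⟨i, hj⟩, hxj⟩, fun hxk => ?_⟩, j, hj, hxj⟩
    have := lev_strictMono.injective (W_unique hxj hxk)
    have h' := hnx1 (T i) j hj
    omega
  have hsub : ((A ∩ WU Z) \ W (lev k)) \ WU (SetLike.coe (T i)) ⊆ cyl (gap (lev k)) z0 := by
    rintro x ⟨⟨⟨-, j, hj, hxj⟩, hxk⟩, hxT⟩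
    rcases hZ i j hj with h | h | h
    · exact absurd ⟨j, h, hxj⟩ hxT
    · exact absurd (by rw [hk, ← h]; exact hxj) hxk
    · exact W_subset_cyl (gap_le_lev h) hxj
  rw [e1] at s1
  rw [e2] at s2
  have h4 : (mk k : ℝ) * |psi (mk k) (((A ∩ WU Z) \ W (lev k)) \ WU (SetLike.coe (T i)))| ≤ δ / 4 := by
    have a1 : |psi (mk k) (((A ∩ WU Z) \ W (lev k)) \ WU (SetLike.coe (T i)))| ≤ (1 / 2) ^ gap (lev k) := by
      rw [← lam_cyl _ z0]
      exact (abs_psi_le _ _).trans (measureReal_mono hsub)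
    have hg1 : (1 : ℝ) ≤ gap (lev k) := by
      have := lt_gap (lev k)
      exact_mod_cast (by omega : 1 ≤ gap (lev k))
    have a2 : (1 / 2 : ℝ) ^ gap (lev k) ≤ (1 / 2) ^ (lev k + 1) / ((lev k : ℝ) + 1) ^ 2 :=
      (le_mul_of_one_le_left (by positivity) hg1).trans (gap_spec _ _ le_rfl)
    have a3 : (mk k : ℝ) * (1 / 2) ^ (lev k + 1) = 1 := by
      simp only [mk, Nat.cast_pow, Nat.cast_ofNat]
      rw [← mul_pow]; norm_num
    have a4 : 1 / ((lev k : ℝ) + 1) ^ 2 ≤ δ / 4 := by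
      have b1 : (i0 : ℝ) ≤ lev k := by exact_mod_cast (by omega : i0 ≤ lev k)
      have b2 : (0 : ℝ) ≤ lev k := Nat.cast_nonneg _
      rw [div_le_iff₀ hδ] at hi0
      rw [div_le_div_iff₀ (by positivity) (by norm_num)]
      nlinarith
    calc _ ≤ (mk k : ℝ) * ((1 / 2) ^ (lev k + 1) / ((lev k : ℝ) + 1) ^ 2) :=
          mul_le_mul_of_nonneg_left (a1.trans a2) (Nat.cast_nonneg _)
      _ = 1 / ((lev k : ℝ) + 1) ^ 2 := by rw [← mul_div_assoc, a3]
      _ ≤ _ := a4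
  have h5 : psi (mk k) (A ∩ W (lev k)) = psi (mk k) (A ∩ WU Z) - psi (mk k) (A ∩ WU (SetLike.coe (T i))) -
      psi (mk k) (((A ∩ WU Z) \ W (lev k)) \ WU (SetLike.coe (T i))) := by linarith
  have h6 : |psi (mk k) (A ∩ W (lev k))| ≤ |psi (mk k) (A ∩ WU Z)| +
      |psi (mk k) (A ∩ WU (SetLike.coe (T i)))| + |psi (mk k) (((A ∩ WU Z) \ W (lev k)) \ WU (SetLike.coe (T i)))| := by
    rw [h5]
    exact (abs_sub _ _).trans (add_le_add (abs_sub _ _) le_rfl)
  have h7 : |mu k A| = (mk k : ℝ) * |psi (mk k) (A ∩ W (lev k))| := by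
    rw [mu, abs_mul, Nat.abs_cast]
  have h8 := mul_le_mul_of_nonneg_left h6 (Nat.cast_nonneg (α := ℝ) (mk k))
  rw [mul_add, mul_add] at h8
  linarith

end Pool.Agent.H976Z.PropT
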